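import Mathlib

/-! Continuation of Dirichlet series by truncated partial summation, and `Q^ε` bounds for
`L(s,χ)` and `ζ(s)` near the line `Re s = 1`. -/

open MeasureTheory Filter Topology Set

namespace Pool.Agent.H307R2

noncomputable section

/-- the tail integral `∫_N^∞ E(t) t^(-s-1) dt` -/
def TM (N : ℕ) (E : ℝ → ℂ) (s : ℂ) : ℂ := ∫ t in Ioi (N : ℝ), E t * (t : ℂ) ^ (-(s + 1))

lemma TM_integrable {N : ℕ} (hN : 1 ≤ N) {E : ℝ → ℂ} (hE : Measurable E) {B : ℝ}
    (hB : ∀ t, ‖E t‖ ≤ B) {s : ℂ} (hs : 0 < s.re) :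
    IntegrableOn (fun t : ℝ => E t * (t : ℂ) ^ (-(s + 1))) (Ioi (N : ℝ)) := by
  have hN0 : (0 : ℝ) < N := by exact_mod_cast hN
  refine Integrable.mono' (g := fun t : ℝ => B * t ^ (-s.re - 1))
    ((integrableOn_Ioi_rpow_of_lt (by linarith) hN0).const_mul B) ?_ ?_
  · refine AEStronglyMeasurable.mul hE.aestronglyMeasurable ?_
    refine ContinuousOn.aestronglyMeasurable ?_ measurableSet_Ioi
    intro t ht
    have ht' : (N : ℝ) < t := ht
    refine ContinuousAt.continuousWithinAt ?_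
    exact (Complex.continuousAt_ofReal_cpow_const _ _ (Or.inr (by linarith)))
  · refine (ae_restrict_mem measurableSet_Ioi).mono fun t ht => ?_
    have ht' : (N : ℝ) < t := ht
    have ht0 : 0 < t := by linarith
    rw [norm_mul, Complex.norm_cpow_eq_rpow_re_of_pos ht0]
    have h2 : (-(s + 1)).re = -s.re - 1 := by simp; ring
    rw [h2]
    have h3 : 0 ≤ t ^ (-s.re - 1) := (Real.rpow_pos_of_pos ht0 _).le
    exact mul_le_mul_of_nonneg_right (hB t) h3

lemma TM_norm_le {N : ℕ} (hN : 1 ≤ N) {E : ℝ → ℂ} {B : ℝ}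
    (hB : ∀ t, ‖E t‖ ≤ B) {s : ℂ} (hs : 0 < s.re) :
    ‖TM N E s‖ ≤ B * ((N : ℝ) ^ (-s.re) / s.re) := by
  have hN0 : (0 : ℝ) < N := by exact_mod_cast hN
  unfold TM
  have h1 : ∫ t in Ioi (N : ℝ), B * t ^ (-s.re - 1) = B * ((N : ℝ) ^ (-s.re) / s.re) := by
    rw [integral_const_mul, integral_Ioi_rpow_of_lt (by linarith) hN0]
    have : -s.re - 1 + 1 = -s.re := by ring
    rw [this, neg_div_neg_eq]
  rw [← h1]
  refine norm_integral_le_of_norm_le
    ((integrableOn_Ioi_rpow_of_lt (by linarith) hN0).const_mul B) ?_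
  refine (ae_restrict_mem measurableSet_Ioi).mono fun t ht => ?_
  have ht' : (N : ℝ) < t := ht
  have ht0 : 0 < t := by linarith
  rw [norm_mul, Complex.norm_cpow_eq_rpow_re_of_pos ht0]
  have h2 : (-(s + 1)).re = -s.re - 1 := by simp; ring
  rw [h2]
  have h3 : 0 ≤ t ^ (-s.re - 1) := (Real.rpow_pos_of_pos ht0 _).le
  exact mul_le_mul_of_nonneg_right (hB t) h3

lemma TM_differentiableAt {N : ℕ} (hN : 1 ≤ N) {E : ℝ → ℂ} (hE : Measurable E) {B : ℝ}
    (hB : ∀ t, ‖E t‖ ≤ B) {s : ℂ} (hs : 0 < s.re) : DifferentiableAt ℂ (TM N E) s := by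
  have hN1 : (1 : ℝ) ≤ N := by exact_mod_cast hN
  set f : ℝ → ℂ := (Ioi (N : ℝ)).indicator E with hf
  have hfm : Measurable f := hE.indicator measurableSet_Ioi
  have hB0 : 0 ≤ B := (norm_nonneg _).trans (hB 0)
  have hfB : ∀ t, ‖f t‖ ≤ B := by
    intro t
    by_cases ht : t ∈ Ioi (N : ℝ)
    · rw [hf, indicator_of_mem ht]; exact hB t
    · rw [hf, indicator_of_notMem ht, norm_zero]; exact hB0
  have hEq : TM N E = fun s => mellin f (-s) := by
    funext z
    unfold TM mellin
    have hsub : Ioi (N : ℝ) ⊆ Ioi 0 := Ioi_subset_Ioi (by linarith)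
    have h1 : ∀ t : ℝ, (t : ℂ) ^ (-z - 1) • f t =
        (Ioi (N : ℝ)).indicator (fun t => E t * (t : ℂ) ^ (-(z + 1))) t := by
      intro t
      by_cases ht : t ∈ Ioi (N : ℝ)
      · rw [hf, indicator_of_mem ht, indicator_of_mem ht, smul_eq_mul, mul_comm]
        congr 2
        ring
      · rw [hf, indicator_of_notMem ht, indicator_of_notMem ht, smul_zero]
    simp_rw [h1]
    rw [setIntegral_indicator measurableSet_Ioi, inter_eq_self_of_subset_right hsub]
  rw [hEq]
  have h1 : DifferentiableAt ℂ (mellin f) (-s) := by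
    refine mellin_differentiableAt_of_isBigO_rpow (a := 0) (b := -s.re - 1) ?_ ?_ ?_ ?_ ?_
    · refine LocallyIntegrable.locallyIntegrableOn ?_ _
      refine LocallyIntegrable.mono (locallyIntegrable_const (B:ℝ)) hfm.aestronglyMeasurable ?_
      refine Eventually.of_forall fun t => ?_
      rw [Real.norm_of_nonneg hB0]
      exact hfB t
    · refine Asymptotics.IsBigO.of_bound B (Eventually.of_forall fun t => ?_)
      simp only [neg_zero, Real.rpow_zero, norm_one, mul_one]
      exact hfB t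
    · simpa using hs
    · refine Asymptotics.IsBigO.of_bound 1 ?_
      have h2 : ∀ᶠ t : ℝ in 𝓝[>] 0, t < 1 := nhdsWithin_le_nhds (Iio_mem_nhds one_pos)
      filter_upwards [h2] with t ht
      have : f t = 0 := by
        rw [hf, indicator_of_notMem]
        simp only [mem_Ioi, not_lt]
        linarith
      rw [this, norm_zero]
      positivity
    · simp
  exact h1.comp s differentiableAt_id.neg

/-- the truncated formula for a Dirichlet series -/
lemma LSeries_trunc (f : ℕ → ℂ) (hf1 : ∀ n, ‖f n‖ ≤ 1) {N : ℕ} (hN : 1 ≤ N) {E : ℝ → ℂ}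
    (hE : Measurable E) {B : ℝ} (hB : ∀ t, ‖E t‖ ≤ B) (c : ℂ)
    (hS : ∀ t : ℝ, (N : ℝ) < t → ∑ k ∈ Finset.Ioc N ⌊t⌋₊, f k = c * (t - N) + E t)
    {s : ℂ} (hs : 1 < s.re) :
    LSeries f s = ∑ n ∈ Finset.Icc 1 N, f n * (n : ℂ) ^ (-s) + c * (N : ℂ) ^ (1 - s) / (s - 1) +
      s * TM N E s := by
  have hN1 : (1 : ℝ) ≤ N := by exact_mod_cast hN
  have hN0 : (0 : ℝ) < N := by linarith
  have hs1 : s - 1 ≠ 0 := by
    intro h
    have : (s - 1).re = 0 := by rw [h]; simp
    simp at this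
    linarith
  have hs0 : s ≠ 0 := by
    intro h
    rw [h] at hs
    simp at hs
    linarith
  -- split f
  set g : ℕ → ℂ := fun n => if N < n then f n else 0 with hg
  set l : ℕ → ℂ := fun n => if N < n then 0 else f n with hl
  have hgO : (fun n => ∑ k ∈ Finset.Icc 1 n, ‖g k‖) =O[atTop] fun n : ℕ => (n : ℝ) ^ (1 : ℝ) := by
    refine Asymptotics.IsBigO.of_bound 1 (Eventually.of_forall fun n => ?_)
    rw [Real.norm_of_nonneg (Finset.sum_nonneg fun _ _ => norm_nonneg _)]
    have : ∑ k ∈ Finset.Icc 1 n, ‖g k‖ ≤ ∑ k ∈ Finset.Icc 1 n, (1 : ℝ) := by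
      refine Finset.sum_le_sum fun k _ => ?_
      simp only [hg]
      split_ifs
      · exact hf1 k
      · simp
    simpa using this
  have hint := LSeries_eq_mul_integral' g (r := 1) zero_le_one hs hgO
  have hgs : LSeriesSummable g s := LSeriesSummable_of_sum_norm_bigO hgO zero_le_one hs
  have hls : LSeriesSummable l s := by
    refine summable_of_ne_finset_zero (s := Finset.range (N + 1)) ?_
    intro n hn
    rw [Finset.mem_range, not_lt] at hn
    have : l n = 0 := by
      simp only [hl]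
      rw [if_pos (by omega)]
    rw [LSeries.term_def]
    split_ifs
    · rfl
    · rw [this, zero_div]
  have hadd : LSeries f s = LSeries l s + LSeries g s := by
    rw [← LSeries_add hls hgs]
    congr 1
    funext n
    simp only [hg, hl, Pi.add_apply]
    split_ifs <;> simp
  have hlS : LSeries l s = ∑ n ∈ Finset.Icc 1 N, f n * (n : ℂ) ^ (-s) := by
    unfold LSeries
    rw [tsum_eq_sum (s := Finset.Icc 1 N)]
    · refine Finset.sum_congr rfl fun n hn => ?_
      rw [Finset.mem_Icc] at hn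
      rw [LSeries.term_of_ne_zero (by omega)]
      have : l n = f n := by
        simp only [hl]
        rw [if_neg (by omega)]
      rw [this, Complex.cpow_neg, div_eq_mul_inv]
    · intro n hn
      rw [Finset.mem_Icc, not_and_or] at hn
      rw [LSeries.term_def]
      split_ifs with h0
      · rfl
      · have : l n = 0 := by
          simp only [hl]
          rw [if_pos (by omega)]
        rw [this, zero_div]
  rw [hadd, hlS, add_assoc]
  congr 1
  rw [hint]
  -- the integral
  have hsum : ∀ t : ℝ, 1 < t → ∑ k ∈ Finset.Icc 1 ⌊t⌋₊, g k =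
      (Ioi (N : ℝ)).indicator (fun t : ℝ => c * (t - N) + E t) t := by
    intro t ht
    by_cases htN : (N : ℝ) < t
    · rw [indicator_of_mem (show t ∈ Ioi (N : ℝ) from htN), ← hS t htN]
      have hNt : N ≤ ⌊t⌋₊ := Nat.le_floor htN.le
      have e0 : ∑ k ∈ Finset.Icc 1 ⌊t⌋₊, g k = ∑ k ∈ Finset.Ioc N ⌊t⌋₊, g k := by
        refine (Finset.sum_subset ?_ ?_).symm
        · intro k hk
          rw [Finset.mem_Ioc] at hk
          rw [Finset.mem_Icc]
          omega
        · intro k hk1 hk2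
          rw [Finset.mem_Icc] at hk1
          rw [Finset.mem_Ioc, not_and_or] at hk2
          simp only [hg]
          rw [if_neg (by omega)]
      rw [e0]
      refine Finset.sum_congr rfl fun k hk => ?_
      rw [Finset.mem_Ioc] at hk
      simp only [hg]
      rw [if_pos hk.1]
    · rw [indicator_of_notMem (by simpa using htN)]
      refine Finset.sum_eq_zero fun k hk => ?_
      rw [Finset.mem_Icc] at hk
      simp only [hg]
      rw [if_neg]
      intro h
      have h2 : (k : ℝ) ≤ t := (Nat.le_floor_iff (by linarith)).1 hk.2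
      have h3 : (N : ℝ) < k := by exact_mod_cast h
      exact htN (by linarith)
  have h1 : ∫ t in Ioi (1 : ℝ), (∑ k ∈ Finset.Icc 1 ⌊t⌋₊, g k) * (t : ℂ) ^ (-(s + 1)) =
      ∫ t in Ioi (N : ℝ), (c * (t - N) + E t) * (t : ℂ) ^ (-(s + 1)) := by
    have hsub : Ioi (N : ℝ) ⊆ Ioi 1 := Ioi_subset_Ioi hN1
    have : ∫ t in Ioi (1 : ℝ), (∑ k ∈ Finset.Icc 1 ⌊t⌋₊, g k) * (t : ℂ) ^ (-(s + 1)) =
      ∫ t in Ioi (1 : ℝ), (Ioi (N : ℝ)).indicator
        (fun t : ℝ => (c * (t - N) + E t) * (t : ℂ) ^ (-(s + 1))) t := by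
      refine setIntegral_congr_fun measurableSet_Ioi fun t ht => ?_
      have ht' : (1 : ℝ) < t := ht
      rw [hsum t ht']
      by_cases htN : t ∈ Ioi (N : ℝ)
      · rw [indicator_of_mem htN, indicator_of_mem htN]
      · rw [indicator_of_notMem htN, indicator_of_notMem htN, zero_mul]
    rw [this, setIntegral_indicator measurableSet_Ioi, inter_eq_self_of_subset_right hsub]
  have hi1 : IntegrableOn (fun t : ℝ => (t : ℂ) ^ (-s)) (Ioi (N : ℝ)) :=
    integrableOn_Ioi_cpow_of_lt (by simpa using hs) hN0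
  have hi2 : IntegrableOn (fun t : ℝ => (t : ℂ) ^ (-(s + 1))) (Ioi (N : ℝ)) :=
    integrableOn_Ioi_cpow_of_lt (by simp; linarith) hN0
  have hi3 := TM_integrable hN hE hB (s := s) (by linarith)
  have h2 : ∫ t in Ioi (N : ℝ), (c * (t - N) + E t) * (t : ℂ) ^ (-(s + 1)) =
      (c * ∫ t in Ioi (N : ℝ), (t : ℂ) ^ (-s)) - (c * N * ∫ t in Ioi (N : ℝ), (t : ℂ) ^ (-(s + 1)))
        + TM N E s := by
    unfold TM
    have hi4 : IntegrableOn (fun t : ℝ => c * (t : ℂ) ^ (-s) - c * N * (t : ℂ) ^ (-(s + 1)))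
      (Ioi (N : ℝ)) := (hi1.const_mul c).sub (hi2.const_mul (c * N))
    rw [← integral_const_mul, ← integral_const_mul, ← integral_sub (hi1.const_mul c)
      (hi2.const_mul (c * N)), ← integral_add hi4 hi3]
    refine setIntegral_congr_fun measurableSet_Ioi fun t ht => ?_
    have ht' : (N : ℝ) < t := ht
    have ht0 : 0 < t := by linarith
    have e1 : (t : ℂ) ^ (-s) = (t : ℂ) * (t : ℂ) ^ (-(s + 1)) := by
      have htc : (t : ℂ) ≠ 0 := by exact_mod_cast ht0.ne'
      have e3 : -s = 1 + -(s + 1) := by ring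
      conv_lhs => rw [e3]
      rw [Complex.cpow_add _ _ htc, Complex.cpow_one]
    rw [e1]
    ring
  have h3 : ∫ t in Ioi (N : ℝ), (t : ℂ) ^ (-s) = (N : ℂ) ^ (1 - s) / (s - 1) := by
    rw [integral_Ioi_cpow_of_lt (by simpa using hs) hN0]
    have e : -s + 1 = -(s - 1) := by ring
    have e' : 1 - s = -(s - 1) := by ring
    rw [e, e', neg_div_neg_eq, Complex.ofReal_natCast]
  have h4 : ∫ t in Ioi (N : ℝ), (t : ℂ) ^ (-(s + 1)) = (N : ℂ) ^ (-s) / s := by
    rw [integral_Ioi_cpow_of_lt (by simp; linarith) hN0]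
    have e : -(s + 1) + 1 = -s := by ring
    rw [e, neg_div_neg_eq, Complex.ofReal_natCast]
  rw [h1, h2, h3, h4]
  have hNc : (N : ℂ) ≠ 0 := by exact_mod_cast hN0.ne'
  have e5 : (N : ℂ) ^ (1 - s) = N * (N : ℂ) ^ (-s) := by
    rw [sub_eq_add_neg, Complex.cpow_add _ _ hNc, Complex.cpow_one]
  rw [e5]
  field_simp
  ring

/-- sum of a function of the residue class over a full block -/
lemma sum_block {q : ℕ} [NeZero q] (f : ZMod q → ℂ) (n : ℕ) :
    ∑ k ∈ Finset.Ioc n (n + q), f (k : ZMod q) = ∑ a : ZMod q, f a := by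
  have hinj : Set.InjOn (fun k : ℕ => (k : ZMod q)) (Finset.Ioc n (n + q) : Finset ℕ) := by
    intro a ha b hb hab
    rw [Finset.mem_coe, Finset.mem_Ioc] at ha hb
    have h1 : a ≡ b [MOD q] := (ZMod.natCast_eq_natCast_iff a b q).1 hab
    rcases le_total a b with h | h
    · have h2 := (Nat.modEq_iff_dvd' h).1 h1
      have h3 : b - a < q := by omega
      have := Nat.eq_zero_of_dvd_of_lt h2 h3
      omega
    · have h2 := (Nat.modEq_iff_dvd' h).1 h1.symm
      have h3 : a - b < q := by omega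
      have := Nat.eq_zero_of_dvd_of_lt h2 h3
      omega
  have himg : (Finset.Ioc n (n + q)).image (fun k : ℕ => (k : ZMod q)) = Finset.univ := by
    apply Finset.eq_univ_of_card
    rw [Finset.card_image_of_injOn hinj, Nat.card_Ioc, ZMod.card]
    omega
  rw [← himg, Finset.sum_image hinj]

lemma sum_Ioc_block {q : ℕ} [NeZero q] (f : ZMod q → ℂ) (hf : ∑ a : ZMod q, f a = 0)
    (hf1 : ∀ a, ‖f a‖ ≤ 1) (n m : ℕ) :
    ‖∑ k ∈ Finset.Ioc n (n + m), f (k : ZMod q)‖ ≤ q := by
  induction m using Nat.strong_induction_on generalizing n with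
  | _ m ih =>
    by_cases h : m < q
    · calc ‖∑ k ∈ Finset.Ioc n (n + m), f (k : ZMod q)‖
          ≤ ∑ k ∈ Finset.Ioc n (n + m), ‖f (k : ZMod q)‖ := norm_sum_le _ _
        _ ≤ ∑ k ∈ Finset.Ioc n (n + m), (1 : ℝ) := Finset.sum_le_sum fun k _ => hf1 _
        _ = m := by simp
        _ ≤ q := by exact_mod_cast h.le
    · push Not at h
      have hq : 0 < q := Nat.pos_of_ne_zero (NeZero.ne q)
      have h1 : ∑ k ∈ Finset.Ioc n (n + m), f (k : ZMod q) =
          ∑ k ∈ Finset.Ioc n (n + q), f (k : ZMod q) +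
          ∑ k ∈ Finset.Ioc (n + q) (n + q + (m - q)), f (k : ZMod q) := by
        have e : n + q + (m - q) = n + m := by omega
        rw [e]
        exact (Finset.sum_Ioc_consecutive _ (by omega) (by omega)).symm
      rw [h1, sum_block, hf, zero_add]
      exact ih (m - q) (by omega) (n + q)

/-- partial sums of `χ` after `N` -/
def Ech {q : ℕ} (χ : DirichletCharacter ℂ q) (N : ℕ) (t : ℝ) : ℂ :=
  ∑ k ∈ Finset.Ioc N ⌊t⌋₊, χ (k : ZMod q)

lemma Ech_measurable {q : ℕ} (χ : DirichletCharacter ℂ q) (N : ℕ) : Measurable (Ech χ N) := by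
  have h : Measurable (fun m : ℕ => ∑ k ∈ Finset.Ioc N m, χ (k : ZMod q)) :=
    measurable_from_nat
  exact h.comp Nat.measurable_floor

lemma Ech_norm_le {q : ℕ} [NeZero q] {χ : DirichletCharacter ℂ q} (hχ : χ ≠ 1) (N : ℕ) (t : ℝ) :
    ‖Ech χ N t‖ ≤ q := by
  unfold Ech
  have hsum : ∑ a : ZMod q, χ a = 0 := MulChar.sum_eq_zero_of_ne_one hχ
  rcases le_total N ⌊t⌋₊ with h | h
  · obtain ⟨m, hm⟩ := Nat.exists_eq_add_of_le h
    rw [hm]
    exact sum_Ioc_block (fun a => χ a) hsum (fun a => χ.norm_le_one a) N m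
  · rw [Finset.Ioc_eq_empty_of_le h, Finset.sum_empty, norm_zero]
    positivity

/-- truncated formula for `L(s,χ)` on `Re s > 0` -/
theorem LFunction_eq {q : ℕ} [NeZero q] {χ : DirichletCharacter ℂ q} (hχ : χ ≠ 1) {N : ℕ}
    (hN : 1 ≤ N) {s : ℂ} (hs : 0 < s.re) :
    χ.LFunction s = ∑ n ∈ Finset.Icc 1 N, χ (n : ZMod q) * (n : ℂ) ^ (-s) +
      s * TM N (Ech χ N) s := by
  have hU : IsOpen {z : ℂ | 0 < z.re} := isOpen_lt continuous_const Complex.continuous_re
  have hconv : Convex ℝ {z : ℂ | 0 < z.re} := convex_halfSpace_re_gt 0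
  have hpre : IsPreconnected {z : ℂ | 0 < z.re} := hconv.isPreconnected
  set R : ℂ → ℂ := fun z => ∑ n ∈ Finset.Icc 1 N, χ (n : ZMod q) * (n : ℂ) ^ (-z) +
      z * TM N (Ech χ N) z with hR
  have h1 : AnalyticOnNhd ℂ χ.LFunction {z : ℂ | 0 < z.re} :=
    ((DirichletCharacter.differentiable_LFunction hχ).differentiableOn).analyticOnNhd hU
  have h2 : AnalyticOnNhd ℂ R {z : ℂ | 0 < z.re} := by
    apply DifferentiableOn.analyticOnNhd _ hU
    intro z hz
    apply DifferentiableAt.differentiableWithinAt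
    have h3 := TM_differentiableAt hN (Ech_measurable χ N) (Ech_norm_le hχ N) hz
    apply DifferentiableAt.add
    · apply DifferentiableAt.fun_sum
      intro n hn
      rw [Finset.mem_Icc] at hn
      have hn0 : (n : ℂ) ≠ 0 := by
        have : n ≠ 0 := by omega
        exact_mod_cast this
      exact (differentiableAt_id.neg.const_cpow (Or.inl hn0)).const_mul _
    · exact differentiableAt_id.mul h3
  have h3 : χ.LFunction =ᶠ[𝓝 (2 : ℂ)] R := by
    have h4 : {z : ℂ | 1 < z.re} ∈ 𝓝 (2 : ℂ) :=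
      (isOpen_lt continuous_const Complex.continuous_re).mem_nhds (by simp)
    filter_upwards [h4] with z hz
    rw [DirichletCharacter.LFunction_eq_LSeries χ hz]
    have := LSeries_trunc (fun n => χ (n : ZMod q)) (fun n => χ.norm_le_one _) hN
      (Ech_measurable χ N) (Ech_norm_le hχ N) 0 (by
        intro t ht
        simp [Ech]) hz
    rw [this, hR]
    simp
  exact h1.eqOn_of_preconnected_of_eventuallyEq h2 hpre (show (2 : ℂ) ∈ {z : ℂ | 0 < z.re} by simp)
    h3 hs

/-- minus the fractional part -/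
def Ez (t : ℝ) : ℂ := ((-(Int.fract t) : ℝ) : ℂ)

lemma Ez_measurable : Measurable Ez :=
  Complex.measurable_ofReal.comp measurable_fract.neg

lemma Ez_norm_le (t : ℝ) : ‖Ez t‖ ≤ 1 := by
  unfold Ez
  rw [Complex.norm_real, norm_neg, Real.norm_of_nonneg (Int.fract_nonneg t)]
  exact (Int.fract_lt_one t).le

/-- truncated formula for `ζ(s)` on `Re s > 0` -/
theorem zeta_eq {N : ℕ} (hN : 1 ≤ N) {s : ℂ} (hs : 0 < s.re) (hs1 : s ≠ 1) :
    riemannZeta s = ∑ n ∈ Finset.Icc 1 N, (n : ℂ) ^ (-s) + (N : ℂ) ^ (1 - s) / (s - 1) +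
      s * TM N Ez s := by
  have hU : IsOpen {z : ℂ | 0 < z.re} := isOpen_lt continuous_const Complex.continuous_re
  have hconv : Convex ℝ {z : ℂ | 0 < z.re} := convex_halfSpace_re_gt 0
  have hpre : IsPreconnected {z : ℂ | 0 < z.re} := hconv.isPreconnected
  have hNc : (N : ℂ) ≠ 0 := by
    have : N ≠ 0 := by omega
    exact_mod_cast this
  set R : ℂ → ℂ := fun z => (z - 1) * (∑ n ∈ Finset.Icc 1 N, (n : ℂ) ^ (-z)) + (N : ℂ) ^ (1 - z) +
      (z - 1) * (z * TM N Ez z) with hR
  have h1 : AnalyticOnNhd ℂ (DirichletCharacter.LFunctionTrivChar₁ 1) {z : ℂ | 0 < z.re} :=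
    ((DirichletCharacter.differentiable_LFunctionTrivChar₁ 1).differentiableOn).analyticOnNhd hU
  have h2 : AnalyticOnNhd ℂ R {z : ℂ | 0 < z.re} := by
    apply DifferentiableOn.analyticOnNhd _ hU
    intro z hz
    apply DifferentiableAt.differentiableWithinAt
    have h3 := TM_differentiableAt hN Ez_measurable Ez_norm_le hz
    apply DifferentiableAt.add
    · apply DifferentiableAt.add
      · apply DifferentiableAt.mul (by fun_prop)
        apply DifferentiableAt.fun_sum
        intro n hn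
        rw [Finset.mem_Icc] at hn
        have hn0 : (n : ℂ) ≠ 0 := by
          have : n ≠ 0 := by omega
          exact_mod_cast this
        exact (differentiableAt_id.neg.const_cpow (Or.inl hn0))
      · exact ((differentiableAt_const _).sub differentiableAt_id).const_cpow (Or.inl hNc)
    · exact (by fun_prop : DifferentiableAt ℂ (fun z : ℂ => z - 1) z).mul
        (differentiableAt_id.mul h3)
  have hone : ∀ z : ℂ, z ≠ 1 → DirichletCharacter.LFunctionTrivChar₁ 1 z =
      (z - 1) * riemannZeta z := by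
    intro z hz
    unfold DirichletCharacter.LFunctionTrivChar₁
    rw [Function.update_of_ne hz]
    unfold DirichletCharacter.LFunctionTrivChar
    rw [DirichletCharacter.LFunction_modOne_eq]
  have h3 : DirichletCharacter.LFunctionTrivChar₁ 1 =ᶠ[𝓝 (2 : ℂ)] R := by
    have h4 : {z : ℂ | 1 < z.re} ∈ 𝓝 (2 : ℂ) :=
      (isOpen_lt continuous_const Complex.continuous_re).mem_nhds (by simp)
    filter_upwards [h4] with z hz
    have hz' : 1 < z.re := hz
    have hz1 : z ≠ 1 := by
      intro h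
      rw [h] at hz'
      simp at hz'
    have hz1' : z - 1 ≠ 0 := sub_ne_zero.2 hz1
    rw [hone z hz1, ← LSeries_one_eq_riemannZeta hz']
    have := LSeries_trunc (fun _ => (1 : ℂ)) (fun n => by simp) hN
      Ez_measurable Ez_norm_le 1 (by
        intro t ht
        have hNt : N ≤ ⌊t⌋₊ := Nat.le_floor ht.le
        have ht0 : 0 ≤ t := le_trans (Nat.cast_nonneg N) ht.le
        have e : ((⌊t⌋₊ : ℕ) : ℝ) = t - Int.fract t := by
          rw [natCast_floor_eq_intCast_floor ht0]
          rw [Int.fract]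
          ring
        have e' : ((⌊t⌋₊ : ℕ) : ℂ) = (t : ℂ) - ((Int.fract t : ℝ) : ℂ) := by
          rw [← Complex.ofReal_natCast, e]
          push_cast
          ring
        simp only [Finset.sum_const, Nat.card_Ioc, nsmul_eq_mul, mul_one, Ez]
        rw [Nat.cast_sub hNt, e']
        push_cast
        ring) hz'
    have e1 : LSeries 1 z = LSeries (fun _ => (1 : ℂ)) z := rfl
    rw [e1, this, hR]
    simp only [one_mul]
    field_simp
  have h4 := h1.eqOn_of_preconnected_of_eventuallyEq h2 hpre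
    (show (2 : ℂ) ∈ {z : ℂ | 0 < z.re} by simp) h3 hs
  rw [hone s hs1, hR] at h4
  have hs1' : s - 1 ≠ 0 := sub_ne_zero.2 hs1
  apply mul_left_cancel₀ hs1'
  rw [h4]
  field_simp

end

end Pool.Agent.H307R2
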