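import Mathlib
import Pool.Agent.H27.G.R_seed8.H307R2.Sg2

/-! Siegel's theorem, part 3: the key inequality (Estermann). -/

open Filter Topology Set
open scoped ComplexOrder

namespace Pool.Agent.H307R2

noncomputable section

lemma key_real (κ b : ℕ → ℝ) (lam B u Kb : ℝ) (hκ : ∀ m, κ m = b m - lam) (hb : ∀ m, 0 ≤ b m)
    (hb0 : 1 / 20 ≤ b 0) (hB : ∀ m, |κ m| ≤ B * (2 / 3) ^ m) (hu1 : 1 < u) (hu2 : u ≤ 9 / 8)
    (hsum : HasSum (fun m => κ m * u ^ m) Kb) (hK : Kb ≤ lam / (u - 1)) (M : ℕ) (hM0 : 0 < M)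
    (hM : 160 * B ≤ (4 / 3) ^ M) : 1 / 40 * (u - 1) ≤ lam * u ^ M := by
  have hu0 : 0 < u - 1 := by linarith
  have hB0 : 0 ≤ B := by
    have := hB 0
    have h2 := abs_nonneg (κ 0)
    simp at this
    linarith
  have h1 := (hasSum_nat_add_iff' M).2 hsum
  have h2 : HasSum (fun n : ℕ => -(B * (3 / 4) ^ M * (3 / 4 : ℝ) ^ n))
      (-(B * (3 / 4) ^ M * (1 - 3 / 4)⁻¹)) :=
    ((hasSum_geometric_of_lt_one (by norm_num) (by norm_num)).mul_left _).neg
  have h3 : -(B * (3 / 4) ^ M * (1 - 3 / 4)⁻¹) ≤ Kb - ∑ i ∈ Finset.range M, κ i * u ^ i := by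
    refine hasSum_le ?_ h2 h1
    intro n
    have h4 : |κ (n + M) * u ^ (n + M)| ≤ B * (3 / 4) ^ M * (3 / 4 : ℝ) ^ n := by
      rw [abs_mul, abs_of_pos (pow_pos (by linarith : 0 < u) _)]
      calc |κ (n + M)| * u ^ (n + M) ≤ B * (2 / 3) ^ (n + M) * (9 / 8) ^ (n + M) := by
            refine mul_le_mul (hB _) (pow_le_pow_left₀ (by linarith) hu2 _) (by positivity)
              (by positivity)
        _ = B * (3 / 4) ^ (n + M) := by
            rw [mul_assoc, ← mul_pow]; norm_num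
        _ = B * (3 / 4) ^ M * (3 / 4 : ℝ) ^ n := by rw [pow_add]; ring
    have h5 := neg_abs_le (κ (n + M) * u ^ (n + M))
    linarith
  have h4 : B * (3 / 4) ^ M * (1 - 3 / 4)⁻¹ ≤ 1 / 40 := by
    have e : (3 / 4 : ℝ) ^ M = ((4 / 3 : ℝ) ^ M)⁻¹ := by rw [← inv_pow]; norm_num
    have hp : (0 : ℝ) < (4 / 3) ^ M := by positivity
    rw [e]
    have e2 : B * ((4 / 3 : ℝ) ^ M)⁻¹ * (1 - 3 / 4)⁻¹ = (4 * B) / (4 / 3) ^ M := by
      field_simp
      norm_num
    rw [e2, div_le_iff₀ hp]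
    linarith
  have h5 : 1 / 20 ≤ ∑ i ∈ Finset.range M, b i * u ^ i := by
    have h6 : b 0 * u ^ 0 ≤ ∑ i ∈ Finset.range M, b i * u ^ i := by
      refine Finset.single_le_sum (f := fun i => b i * u ^ i) ?_ (Finset.mem_range.2 hM0)
      intro i _
      exact mul_nonneg (hb i) (by positivity)
    simp at h6
    linarith
  have h6 : ∑ i ∈ Finset.range M, κ i * u ^ i =
      ∑ i ∈ Finset.range M, b i * u ^ i - lam * ((u ^ M - 1) / (u - 1)) := by
    rw [← geom_sum_eq hu1.ne' M, Finset.mul_sum, ← Finset.sum_sub_distrib]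
    refine Finset.sum_congr rfl fun i _ => ?_
    rw [hκ]; ring
  have h7 : 1 / 40 - lam * ((u ^ M - 1) / (u - 1)) ≤ lam / (u - 1) := by linarith
  have h8 : (1 / 40 - lam * ((u ^ M - 1) / (u - 1))) * (u - 1) ≤ lam := by
    rwa [← le_div_iff₀ hu0]
  have h9 : (1 / 40 - lam * ((u ^ M - 1) / (u - 1))) * (u - 1) =
      1 / 40 * (u - 1) - lam * (u ^ M - 1) := by
    field_simp
  rw [h9] at h8
  linarith

/-- choice of `M` -/
lemma choose_M {D u : ℝ} (hD : 1 ≤ D) (hu1 : 1 < u) (hu2 : u ≤ 9 / 8) : ∃ M : ℕ, 0 < M ∧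
    160 * (6144 * D ^ 2) ≤ (4 / 3) ^ M ∧ u ^ M ≤ 2000 * D ^ (8 * (u - 1)) := by
  set X : ℝ := 160 * (6144 * D ^ 2) with hX
  have hX1 : 1 ≤ X := by
    rw [hX]; nlinarith
  have hX0 : 0 < X := by linarith
  have hlog : 0 ≤ Real.log X := Real.log_nonneg hX1
  refine ⟨⌈4 * Real.log X⌉₊ + 1, by omega, ?_, ?_⟩
  · have h1 : 4 * Real.log X ≤ (⌈4 * Real.log X⌉₊ : ℝ) := Nat.le_ceil _
    have h2 : Real.exp (1 / 4) ≤ 4 / 3 := by
      have h3 : 1 - 1 / 4 ≤ Real.exp (-(1 / 4)) := by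
        have := Real.add_one_le_exp (-(1 / 4) : ℝ)
        linarith
      rw [Real.exp_neg] at h3
      have h4 : (0 : ℝ) < Real.exp (1 / 4) := Real.exp_pos _
      have h5 : (3 / 4 : ℝ) ≤ (Real.exp (1 / 4))⁻¹ := by linarith
      rw [le_inv_comm₀ (by norm_num) h4] at h5
      linarith
    calc X = Real.exp (Real.log X) := (Real.exp_log hX0).symm
      _ ≤ Real.exp ((⌈4 * Real.log X⌉₊ + 1 : ℕ) * (1 / 4)) := by
          apply Real.exp_le_exp.2
          push_cast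
          linarith
      _ = Real.exp (1 / 4) ^ (⌈4 * Real.log X⌉₊ + 1) := by rw [Real.exp_nat_mul]
      _ ≤ (4 / 3) ^ (⌈4 * Real.log X⌉₊ + 1) := pow_le_pow_left₀ (Real.exp_pos _).le h2 _
  · have h1 : (⌈4 * Real.log X⌉₊ : ℝ) ≤ 4 * Real.log X + 1 :=
      (Nat.ceil_lt_add_one (by positivity)).le
    have hu0 : 0 ≤ u - 1 := by linarith
    have h2 : u ≤ Real.exp (u - 1) := by
      have := Real.add_one_le_exp (u - 1)
      linarith
    have h3 : Real.log X = Real.log 983040 + 2 * Real.log D := by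
      have : X = 983040 * D ^ 2 := by rw [hX]; ring
      rw [this, Real.log_mul (by norm_num) (by positivity), Real.log_pow]
      push_cast
      ring
    calc u ^ (⌈4 * Real.log X⌉₊ + 1) ≤ Real.exp (u - 1) ^ (⌈4 * Real.log X⌉₊ + 1) :=
          pow_le_pow_left₀ (by linarith) h2 _
      _ = Real.exp ((⌈4 * Real.log X⌉₊ + 1 : ℕ) * (u - 1)) := by rw [Real.exp_nat_mul]
      _ ≤ Real.exp ((4 * Real.log X + 2) * (u - 1)) := by
          apply Real.exp_le_exp.2
          push_cast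
          nlinarith
      _ = Real.exp ((4 * Real.log 983040 + 2) * (u - 1)) * Real.exp (Real.log D * (8 * (u - 1))) := by
          rw [← Real.exp_add, h3]
          congr 1
          ring
      _ = Real.exp ((4 * Real.log 983040 + 2) * (u - 1)) * D ^ (8 * (u - 1)) := by
          rw [Real.rpow_def_of_pos (by linarith)]
      _ ≤ 2000 * D ^ (8 * (u - 1)) := by
          refine mul_le_mul_of_nonneg_right ?_ (by positivity)
          have hl : Real.log 983040 ≤ 14 := by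
            rw [Real.log_le_iff_le_exp (by norm_num)]
            have := Real.exp_one_gt_d9
            calc (983040 : ℝ) ≤ 2.7182818283 ^ 14 := by norm_num
              _ ≤ Real.exp 1 ^ 14 := pow_le_pow_left₀ (by norm_num) this.le _
              _ = Real.exp 14 := by rw [← Real.exp_nat_mul]; norm_num
          have hl0 : 0 ≤ Real.log 983040 := Real.log_nonneg (by norm_num)
          calc Real.exp ((4 * Real.log 983040 + 2) * (u - 1)) ≤ Real.exp (58 * (1 / 8)) := by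
                apply Real.exp_le_exp.2
                have : 4 * Real.log 983040 + 2 ≤ 58 := by linarith
                nlinarith
            _ ≤ Real.exp 7.5 := Real.exp_le_exp.2 (by norm_num)
            _ ≤ 2000 := by
                have h6 := Real.exp_one_lt_d9
                have h5 : Real.exp 7.5 ^ 2 ≤ 2000 ^ 2 := by
                  calc Real.exp 7.5 ^ 2 = Real.exp 1 ^ 15 := by
                        rw [← Real.exp_nat_mul, ← Real.exp_nat_mul]; norm_num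
                    _ ≤ 2.7182818286 ^ 15 := pow_le_pow_left₀ (Real.exp_pos _).le h6.le _
                    _ ≤ 2000 ^ 2 := by norm_num
                exact (pow_le_pow_iff_left₀ (Real.exp_pos _).le (by norm_num) (by norm_num)).1 h5

/-- crude bound for `L(s,χ)` -/
lemma LFunction_crude {q : ℕ} [NeZero q] {χ : DirichletCharacter ℂ q} (hχ : χ ≠ 1) {s : ℂ}
    (hs : 1 / 2 ≤ s.re) (hs2 : ‖s‖ ≤ 7 / 2) : ‖χ.LFunction s‖ ≤ 8 * q := by
  have hq : (1 : ℝ) ≤ q := by exact_mod_cast Nat.one_le_iff_ne_zero.2 (NeZero.ne q)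
  have hs0 : 0 < s.re := by linarith
  rw [LFunction_eq hχ le_rfl hs0]
  have h1 := TM_norm_le (N := 1) le_rfl (Ech_norm_le hχ 1) hs0
  have h2 : ‖s * TM 1 (Ech χ 1) s‖ ≤ 7 * q := by
    rw [norm_mul]
    have h3 : (q : ℝ) * (((1 : ℕ) : ℝ) ^ (-s.re) / s.re) ≤ q * 2 := by
      refine mul_le_mul_of_nonneg_left ?_ (by positivity)
      rw [Nat.cast_one, Real.one_rpow, div_le_iff₀ hs0]
      linarith
    calc ‖s‖ * ‖TM 1 (Ech χ 1) s‖ ≤ (7 / 2) * (q * 2) :=
          mul_le_mul hs2 (h1.trans h3) (norm_nonneg _) (by norm_num)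
      _ = 7 * q := by ring
  have h3 : ‖∑ n ∈ Finset.Icc (1 : ℕ) 1, χ (n : ZMod q) * (n : ℂ) ^ (-s)‖ ≤ 1 := by
    simp
  calc _ ≤ 1 + 7 * (q : ℝ) := (norm_add_le _ _).trans (add_le_add h3 h2)
    _ ≤ 8 * q := by linarith

lemma zeta_crude {s : ℂ} (hs : 1 / 2 ≤ s.re) (hs2 : ‖s‖ ≤ 7 / 2) (hs3 : 1 / 2 ≤ ‖s - 1‖) :
    ‖riemannZeta s‖ ≤ 10 := by
  have hs0 : 0 < s.re := by linarith
  have hne : s ≠ 1 := by
    intro h
    rw [h] at hs3
    simp at hs3
    linarith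
  rw [zeta_eq le_rfl hs0 hne]
  have h1 := TM_norm_le (N := 1) le_rfl Ez_norm_le hs0
  have h2 : ‖s * TM 1 Ez s‖ ≤ 7 := by
    rw [norm_mul]
    have h3 : (1 : ℝ) * (((1 : ℕ) : ℝ) ^ (-s.re) / s.re) ≤ 2 := by
      rw [Nat.cast_one, Real.one_rpow, one_mul, div_le_iff₀ hs0]
      linarith
    calc ‖s‖ * ‖TM 1 Ez s‖ ≤ (7 / 2) * 2 :=
          mul_le_mul hs2 (h1.trans h3) (norm_nonneg _) (by norm_num)
      _ = 7 := by ring
  have h3 : ‖∑ n ∈ Finset.Icc (1 : ℕ) 1, (n : ℂ) ^ (-s)‖ ≤ 1 := by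
    simp
  have h4 : ‖((1 : ℕ) : ℂ) ^ (1 - s) / (s - 1)‖ ≤ 2 := by
    rw [Nat.cast_one, Complex.one_cpow, norm_div, norm_one, div_le_iff₀ (by linarith)]
    linarith
  calc _ ≤ (1 : ℝ) + 2 + 7 := (norm_add_le _ _).trans
        (add_le_add ((norm_add_le _ _).trans (add_le_add h3 h4)) h2)
    _ = 10 := by norm_num

end

end Pool.Agent.H307R2
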